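import Mathlib

/-!
# Linear search with a turning cost: the exact value

The value `V(d)` of the problem is `5 + d + 2 √(4 + 2 d)` for every `d > 0`. In particular it is
smaller than `9 + 2 d` for every `d > 0`.

* Upper bound: the trajectory `x i = (d / 2) (r ^ (i + 1) - 1)` with `1 < r ≤ 2` satisfies
  `C(S, H) ≤ d r + (1 + 2 r ^ 2 / (r - 1)) |H|`; take `r = 1 + √(2 / (2 + d))`.
* Lower bound: if the expected cost is at most `v` for all hiding strategies, then
  `C(S, H) ≤ a + b |H|` with `a + b = v`; the resulting recursion for the turning points forces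
  `b ≥ 9` and `a ≥ d r`, where `r ∈ (1, 2]` is given by `b = 1 + 2 r ^ 2 / (r - 1)`.
-/

open MeasureTheory Set
open scoped ENNReal

namespace Pool.Agent.Results.MP_5c5fd6_lc.TurnCostValue

/-- The points at which the legs of the search trajectory `S = (x i)` begin and end: the searcher
moves from `0 = pt x 0` to `x 0 = pt x 1`, then to `- x 1 = pt x 2`, and so on. -/
noncomputable def pt (x : ℕ → ℝ) : ℕ → ℝ
  | 0 => 0
  | i + 1 => (-1) ^ i * x i

/-- The time at which leg `i` (from `pt x i` to `pt x (i + 1)`) begins: distance travelled before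
plus the turning cost `d` for each of the `i` turns. -/
noncomputable def start (d : ℝ) (x : ℕ → ℝ) (i : ℕ) : ℝ :=
  ∑ j ∈ Finset.range i, (|pt x (j + 1) - pt x j| + d)

/-- `C(S, H)`: the first time at which the searcher is at `H`, and `∞` if this never happens. In
leg `i` the point `H` is met iff it lies between `pt x i` and `pt x (i + 1)`, and this happens
`|H - pt x i|` time units after the beginning of the leg. -/
noncomputable def cost (d : ℝ) (x : ℕ → ℝ) (H : ℝ) : ℝ≥0∞ :=
  ⨅ (i : ℕ) (_ : H ∈ uIcc (pt x i) (pt x (i + 1))), ENNReal.ofReal (start d x i + |H - pt x i|)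

/-- The worst expected cost of the trajectory `x`: the supremum of `c(S, h) = E_h C(S, H)` over all
probability measures `h` on `ℝ` with `E_h |H| ≤ 1`. -/
noncomputable def worst (d : ℝ) (x : ℕ → ℝ) : ℝ≥0∞ :=
  ⨆ (h : Measure ℝ) (_ : IsProbabilityMeasure h) (_ : ∫⁻ H, ENNReal.ofReal |H| ∂h ≤ 1),
    ∫⁻ H, cost d x H ∂h

/-- The value `V(d)`: the infimum of the worst expected cost over all sequences of positive
reals. -/
noncomputable def value (d : ℝ) : ℝ≥0∞ :=
  ⨅ (x : ℕ → ℝ) (_ : ∀ i, 0 < x i), worst d x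

/-- the time at which the searcher would be back at the origin after `i` turns -/
noncomputable def back (d : ℝ) (x : ℕ → ℝ) (i : ℕ) : ℝ := ∑ j ∈ Finset.range i, (2 * x j + d)

lemma back_succ (d : ℝ) (x : ℕ → ℝ) (i : ℕ) : back d x (i + 1) = back d x i + (2 * x i + d) := by
  unfold back; rw [Finset.sum_range_succ]

lemma back_mono {d : ℝ} {x : ℕ → ℝ} (hd : 0 < d) (hx : ∀ i, 0 < x i) : Monotone (back d x) := by
  apply monotone_nat_of_le_succ
  intro i
  rw [back_succ]
  have := hx i
  linarith

/-- the point `pt x i` for `i = 0` is the origin; the leg length is the sum of the two distances -/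
lemma leg_abs {x : ℕ → ℝ} (hx : ∀ i, 0 < x i) (i : ℕ) :
    |pt x (i + 2) - pt x (i + 1)| = x (i + 1) + x i := by
  have h1 := hx i
  have h2 := hx (i + 1)
  simp only [pt]
  rcases Nat.even_or_odd i with h | h
  · have h' : Odd (i + 1) := h.add_one
    rw [h.neg_one_pow, h'.neg_one_pow, abs_of_nonpos (by linarith)]; ring
  · have h' : Even (i + 1) := h.add_one
    rw [h.neg_one_pow, h'.neg_one_pow, abs_of_nonneg (by linarith)]; ring

lemma start_succ {d : ℝ} {x : ℕ → ℝ} (hx : ∀ i, 0 < x i) (i : ℕ) :
    start d x (i + 1) = back d x (i + 1) - x i := by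
  induction i with
  | zero =>
    have := hx 0
    simp only [start, back, pt, Finset.sum_range_succ, Finset.sum_range_zero, pow_zero, one_mul,
      sub_zero, zero_add]
    rw [abs_of_pos this]; ring
  | succ i ih =>
    have e : start d x (i + 1 + 1) = start d x (i + 1) + (|pt x (i + 2) - pt x (i + 1)| + d) := by
      unfold start; rw [Finset.sum_range_succ]
    rw [e, ih, leg_abs hx, back_succ d x (i + 1)]; ring

lemma pt_abs {x : ℕ → ℝ} (i : ℕ) (h : ℝ) :
    |(-1) ^ (i + 1) * h - pt x (i + 1)| = |h + x i| := by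
  simp only [pt]
  rw [pow_succ, show (-1 : ℝ) ^ i * -1 * h - (-1) ^ i * x i = (-1) ^ i * (-(h + x i)) by ring,
    abs_mul, abs_pow, abs_neg, abs_one, one_pow, one_mul, abs_neg]

/-- membership in a leg -/
lemma mem_leg_of_le {x : ℕ → ℝ} (hx : ∀ i, 0 < x i) {k : ℕ} {h : ℝ} (h0 : 0 ≤ h) (h1 : h ≤ x k) :
    (-1) ^ k * h ∈ uIcc (pt x k) (pt x (k + 1)) := by
  rcases k with _ | k
  · simp only [pt, pow_zero, one_mul]
    rw [uIcc_of_le (hx 0).le]
    exact ⟨h0, h1⟩
  · have h2 := hx k
    simp only [pt]
    rcases Nat.even_or_odd k with hk | hk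
    · have hk' : Odd (k + 1) := hk.add_one
      rw [hk.neg_one_pow, hk'.neg_one_pow, uIcc_of_ge (by linarith)]
      constructor <;> linarith
    · have hk' : Even (k + 1) := hk.add_one
      rw [hk.neg_one_pow, hk'.neg_one_pow, uIcc_of_le (by linarith)]
      constructor <;> linarith

lemma cost_le {d : ℝ} {x : ℕ → ℝ} (hx : ∀ i, 0 < x i) {k : ℕ} {h : ℝ} (h0 : 0 ≤ h)
    (h1 : h ≤ x k) : cost d x ((-1) ^ k * h) ≤ ENNReal.ofReal (back d x k + h) := by
  refine (iInf₂_le k (mem_leg_of_le hx h0 h1)).trans (ENNReal.ofReal_le_ofReal ?_)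
  rcases k with _ | k
  · simp [start, back, pt, abs_of_nonneg h0]
  · rw [start_succ hx, pt_abs, abs_of_nonneg (by have := hx k; linarith)]
    linarith

lemma cost_ge {d : ℝ} (hd : 0 < d) {x : ℕ → ℝ} (hx : ∀ i, 0 < x i) {k : ℕ} {h : ℝ} (h0 : 0 < h)
    (hlt : ∀ j < k, j % 2 = k % 2 → x j < h) :
    ENNReal.ofReal (back d x k + h) ≤ cost d x ((-1) ^ k * h) := by
  refine le_iInf₂ fun i hi => ENNReal.ofReal_le_ofReal ?_
  -- the sign of the end points
  have hsign : ∀ j : ℕ, (j % 2 = k % 2 → (-1 : ℝ) ^ k = (-1) ^ j) ∧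
      (j % 2 ≠ k % 2 → (-1 : ℝ) ^ k = -(-1) ^ j) := by
    intro j
    rcases Nat.even_or_odd j with h1 | h1 <;> rcases Nat.even_or_odd k with h2 | h2
    · rw [h1.neg_one_pow, h2.neg_one_pow]
      refine ⟨fun _ => rfl, fun h => absurd ?_ h⟩
      rw [Nat.even_iff.1 h1, Nat.even_iff.1 h2]
    · rw [h1.neg_one_pow, h2.neg_one_pow]
      refine ⟨fun h => absurd h ?_, fun _ => rfl⟩
      rw [Nat.even_iff.1 h1, Nat.odd_iff.1 h2]; norm_num
    · rw [h1.neg_one_pow, h2.neg_one_pow]
      refine ⟨fun h => absurd h ?_, fun _ => by norm_num⟩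
      rw [Nat.odd_iff.1 h1, Nat.even_iff.1 h2]; norm_num
    · rw [h1.neg_one_pow, h2.neg_one_pow]
      refine ⟨fun _ => rfl, fun h => absurd ?_ h⟩
      rw [Nat.odd_iff.1 h1, Nat.odd_iff.1 h2]
  rcases i with _ | i
  · -- leg `0`
    simp only [pt, pow_zero, one_mul] at hi
    rw [uIcc_of_le (hx 0).le] at hi
    have hk : k = 0 := by
      by_contra hk
      rcases Nat.even_or_odd k with h2 | h2
      · rw [h2.neg_one_pow, one_mul] at hi
        have := hlt 0 (Nat.pos_of_ne_zero hk) (by rw [Nat.even_iff.1 h2])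
        exact absurd hi.2 (not_le.2 this)
      · rw [h2.neg_one_pow] at hi
        have := hi.1
        linarith
    subst hk
    simp only [start, back, pt, Finset.range_zero, Finset.sum_empty, zero_add, pow_zero, one_mul,
      sub_zero]
    exact le_abs_self h
  · have hxi := hx i
    have hxi' := hx (i + 1)
    by_cases hpar : (i + 1) % 2 = k % 2
    · -- the leg leads to the side of the point
      have e := (hsign (i + 1)).1 hpar
      rw [e] at hi ⊢
      have hle : h ≤ x (i + 1) := by
        simp only [pt] at hi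
        rcases Nat.even_or_odd i with hk | hk
        · have hk' : Odd (i + 1) := hk.add_one
          rw [hk.neg_one_pow, hk'.neg_one_pow, uIcc_of_ge (by linarith)] at hi
          have := hi.1
          linarith
        · have hk' : Even (i + 1) := hk.add_one
          rw [hk.neg_one_pow, hk'.neg_one_pow, uIcc_of_le (by linarith)] at hi
          have := hi.2
          linarith
      have hki : k ≤ i + 1 := by
        by_contra hcon
        exact absurd hle (not_le.2 (hlt (i + 1) (by omega) hpar))
      rw [start_succ hx, pt_abs, abs_of_nonneg (by linarith)]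
      have := back_mono hd hx hki
      linarith
    · -- the leg begins on the side of the point
      have hpar' : i % 2 = k % 2 := by omega
      have e := (hsign i).1 hpar'
      rw [e] at hi ⊢
      have hle : h ≤ x i := by
        simp only [pt] at hi
        rcases Nat.even_or_odd i with hk | hk
        · have hk' : Odd (i + 1) := hk.add_one
          rw [hk.neg_one_pow, hk'.neg_one_pow, uIcc_of_ge (by linarith)] at hi
          have := hi.2
          linarith
        · have hk' : Even (i + 1) := hk.add_one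
          rw [hk.neg_one_pow, hk'.neg_one_pow, uIcc_of_le (by linarith)] at hi
          have := hi.1
          linarith
      have hki : k ≤ i := by
        by_contra hcon
        exact absurd hle (not_le.2 (hlt i (by omega) hpar'))
      have habs : |(-1) ^ i * h - pt x (i + 1)| = x i - h := by
        simp only [pt]
        rw [show (-1 : ℝ) ^ i * h - (-1) ^ i * x i = (-1) ^ i * (-(x i - h)) by ring,
          abs_mul, abs_pow, abs_neg, abs_one, one_pow, one_mul, abs_neg,
          abs_of_nonneg (by linarith)]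
      rw [start_succ hx, habs, back_succ]
      have := back_mono hd hx hki
      linarith

/-- every real number is of the form `(-1) ^ k * h` with `h ≥ 0` -/
lemma sign_cases (H : ℝ) : H = (-1) ^ 0 * |H| ∨ H = (-1) ^ 1 * |H| := by
  rcases le_total 0 H with h | h
  · left; simp [abs_of_nonneg h]
  · right; simp [abs_of_nonpos h]

/-- a linear bound for the cost gives a bound for the worst expected cost -/
lemma worst_le {d : ℝ} {x : ℕ → ℝ} {a b : ℝ} (ha : 0 ≤ a) (hb : 0 ≤ b)
    (h : ∀ H, cost d x H ≤ ENNReal.ofReal (a + b * |H|)) :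
    worst d x ≤ ENNReal.ofReal (a + b) := by
  refine iSup_le fun μ => iSup_le fun hμ => iSup_le fun hE => ?_
  calc ∫⁻ H, cost d x H ∂μ ≤ ∫⁻ H, (ENNReal.ofReal a + ENNReal.ofReal b * ENNReal.ofReal |H|) ∂μ := by
        refine lintegral_mono fun H => (h H).trans ?_
        rw [ENNReal.ofReal_add ha (by positivity), ENNReal.ofReal_mul hb]
    _ = ENNReal.ofReal a + ENNReal.ofReal b * ∫⁻ H, ENNReal.ofReal |H| ∂μ := by
        rw [lintegral_add_left measurable_const, lintegral_const, measure_univ, mul_one,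
          lintegral_const_mul]
        fun_prop
    _ ≤ ENNReal.ofReal a + ENNReal.ofReal b * 1 := by gcongr
    _ = ENNReal.ofReal (a + b) := by rw [mul_one, ENNReal.ofReal_add ha hb]

/-! ### The upper bound -/

/-- the trajectory `x i = (d / 2) (r ^ (i + 1) - 1)` -/
noncomputable def traj (d r : ℝ) : ℕ → ℝ := fun i => d / 2 * (r ^ (i + 1) - 1)

lemma traj_pos {d r : ℝ} (hd : 0 < d) (hr : 1 < r) (i : ℕ) : 0 < traj d r i := by
  unfold traj
  have h1 : 1 < r ^ (i + 1) := one_lt_pow₀ hr (Nat.succ_ne_zero i)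
  have h2 : 0 < r ^ (i + 1) - 1 := by linarith
  positivity

lemma back_traj {d r : ℝ} (hr : 1 < r) (k : ℕ) :
    back d (traj d r) k = d * r * (r ^ k - 1) / (r - 1) := by
  have h : r - 1 ≠ 0 := by linarith
  induction k with
  | zero => simp [back]
  | succ k ih =>
    rw [back_succ, ih, traj]
    field_simp
    ring

lemma upper {d r : ℝ} (hd : 0 < d) (hr : 1 < r) :
    worst d (traj d r) ≤ ENNReal.ofReal (d * r + (1 + 2 * r ^ 2 / (r - 1))) := by
  have hr1 : 0 < r - 1 := by linarith
  have hb : 0 ≤ 1 + 2 * r ^ 2 / (r - 1) := by positivity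
  have hx := traj_pos hd hr
  refine worst_le (by positivity) hb fun H => ?_
  have key : ∀ s : ℕ, s ≤ 1 → ∀ h : ℝ, 0 ≤ h → cost d (traj d r) ((-1) ^ s * h) ≤
      ENNReal.ofReal (d * r + (1 + 2 * r ^ 2 / (r - 1)) * h) := by
    intro s hs h h0
    have hex : ∃ j : ℕ, h ≤ traj d r (s + 2 * j) := by
      obtain ⟨n, hn⟩ := pow_unbounded_of_one_lt (h / (d / 2) + 1) hr
      refine ⟨n, ?_⟩
      have h1 : r ^ n ≤ r ^ (s + 2 * n + 1) := pow_le_pow_right₀ hr.le (by omega)
      unfold traj
      have h2 : h / (d / 2) ≤ r ^ (s + 2 * n + 1) - 1 := by linarith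
      rw [div_le_iff₀ (by positivity)] at h2
      linarith
    classical
    have hfind := Nat.find_spec hex
    have hmin := fun m => Nat.find_min (H := hex) (m := m)
    generalize Nat.find hex = j at hfind hmin
    have e : (-1 : ℝ) ^ s = (-1) ^ (s + 2 * j) := by
      rw [pow_add, pow_mul]; norm_num
    rw [e]
    refine (cost_le hx h0 hfind).trans (ENNReal.ofReal_le_ofReal ?_)
    have h3 : 0 ≤ 2 * r ^ 2 / (r - 1) := by positivity
    rcases j with _ | j
    · have h1 : back d (traj d r) (s + 2 * 0) ≤ d * r := by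
        rcases Nat.le_one_iff_eq_zero_or_eq_one.1 hs with h2 | h2
        · subst h2
          simp only [back, Nat.mul_zero, Nat.add_zero, Finset.range_zero, Finset.sum_empty]
          positivity
        · subst h2
          rw [back_traj hr]
          simp only [Nat.mul_zero, Nat.add_zero, pow_one]
          rw [mul_div_assoc, div_self hr1.ne', mul_one]
      nlinarith
    · have h1 := hmin j (by omega)
      push Not at h1
      have h2 : back d (traj d r) (s + 2 * (j + 1)) =
          d * r + 2 * r ^ 2 / (r - 1) * traj d r (s + 2 * j) := by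
        rw [back_traj hr, traj]
        field_simp
        ring
      rw [h2]
      nlinarith
  rcases sign_cases H with h | h
  · conv_lhs => rw [h]
    exact key 0 (by norm_num) _ (abs_nonneg _)
  · conv_lhs => rw [h]
    exact key 1 (by norm_num) _ (abs_nonneg _)

/-! ### The lower bound: the recursion -/

lemma seq_contra_small {a d m : ℝ} (hd : 0 < d) (hm : m < 4) (σ : ℕ → ℝ) (h0 : σ 0 = 0)
    (hstep : ∀ n, σ (n + 2) ≤ a + m * (σ (n + 1) - σ n - d))
    (hinc : ∀ n, σ n + d ≤ σ (n + 1)) : False := by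
  have hlin : ∀ n : ℕ, n * d ≤ σ n := by
    intro n
    induction n with
    | zero => simp [h0]
    | succ n ih => have := hinc n; push_cast; linarith
  have hmono : Monotone σ := monotone_nat_of_le_succ fun n => by have := hinc n; linarith
  rcases le_or_gt m 0 with hm0 | hm0
  · obtain ⟨n, hn⟩ := exists_nat_gt (a / d)
    have h1 := hstep n
    have h2 := hinc n
    have h3 := hlin (n + 2)
    have h4 : a < n * d := by rwa [div_lt_iff₀ hd] at hn
    push_cast at h3
    nlinarith
  · -- `0 < m < 4`
    set δ : ℝ := (4 - m) / m with hδ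
    have hδ0 : 0 < δ := by rw [hδ]; apply div_pos <;> linarith
    -- from some index on, `w (n+1) ≤ 2 w n - (δ/2) σ (n+1)`
    have hD : ∀ n, (4 - m) * (σ (n + 1) - σ n - d) ≥ δ * (σ (n + 2) - a) := by
      intro n
      have h1 := hstep n
      have h2 : σ (n + 2) - a ≤ m * (σ (n + 1) - σ n - d) := by linarith
      have h3 : δ * (σ (n + 2) - a) ≤ δ * (m * (σ (n + 1) - σ n - d)) := by gcongr
      have h4 : δ * (m * (σ (n + 1) - σ n - d)) = (4 - m) * (σ (n + 1) - σ n - d) := by
        rw [hδ]; field_simp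
      linarith
    obtain ⟨N, hN⟩ := exists_nat_gt ((2 * (|a| + δ * |a|) / δ) / d)
    have hNσ : ∀ n ≥ N, |a| + δ * |a| ≤ δ / 2 * σ (n + 1) := by
      intro n hn
      rw [div_lt_iff₀ hd, div_lt_iff₀ hδ0] at hN
      have h1 : (N : ℝ) * d ≤ n * d := by
        have : (N : ℝ) ≤ n := by exact_mod_cast hn
        gcongr
      have h2 := hlin n
      have h3 := hmono (Nat.le_succ n)
      have h4 : (N : ℝ) * d * δ ≤ σ (n + 1) * δ := by
        have : (N : ℝ) * d ≤ σ (n + 1) := by simp only [Nat.succ_eq_add_one] at h3; linarith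
        gcongr
      nlinarith
    have hw : ∀ n ≥ N, σ (n + 2) - 2 * σ (n + 1) ≤
        2 * (σ (n + 1) - 2 * σ n) - δ / 2 * σ (n + 1) := by
      intro n hn
      have h1 := hstep n
      have h2 := hD n
      have h3 := hNσ n hn
      have h4 := hinc (n + 1)
      have h5 := le_abs_self a
      have h6 : δ * a ≤ δ * |a| := by gcongr
      have h7 : δ * σ (n + 1) ≤ δ * σ (n + 2) := by
        have : σ (n + 1) ≤ σ (n + 2) := by linarith
        gcongr
      nlinarith
    -- normalise
    set t : ℕ → ℝ := fun n => σ n / 2 ^ n with ht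
    have ht1 : ∀ n, 0 < t (n + 1) := by
      intro n
      have h1 := hlin (n + 1)
      have h2 : 0 < σ (n + 1) := by
        have : (0 : ℝ) < ((n + 1 : ℕ) : ℝ) * d := by positivity
        linarith
      positivity
    have hω : ∀ n ≥ N, t (n + 2) - t (n + 1) ≤ (t (n + 1) - t n) - δ / 8 * t (n + 1) := by
      intro n hn
      have h1 := hw n hn
      have e1 : t (n + 2) - t (n + 1) = (σ (n + 2) - 2 * σ (n + 1)) / 2 ^ (n + 2) := by
        simp only [ht]; field_simp; ring
      have e2 : (t (n + 1) - t n) - δ / 8 * t (n + 1) =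
          (2 * (σ (n + 1) - 2 * σ n) - δ / 4 * σ (n + 1)) / 2 ^ (n + 2) := by
        simp only [ht]; field_simp; ring
      rw [e1, e2]
      have h2 : 0 < σ (n + 1) := by
        have := ht1 n
        simp only [ht] at this
        by_contra hcon
        push Not at hcon
        have : σ (n + 1) / 2 ^ (n + 1) ≤ 0 := div_nonpos_of_nonpos_of_nonneg hcon (by positivity)
        linarith
      have h3 : δ / 4 * σ (n + 1) ≤ δ / 2 * σ (n + 1) := by
        have : 0 < δ * σ (n + 1) := by positivity
        linarith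
      exact div_le_div_of_nonneg_right (by linarith) (by positivity)
    -- the increments are decreasing
    have hdec : ∀ n ≥ N, t (n + 2) - t (n + 1) < t (n + 1) - t n := by
      intro n hn
      have h1 := hω n hn
      have h2 := ht1 n
      have : 0 < δ / 8 * t (n + 1) := by positivity
      linarith
    by_cases hneg : ∃ n ≥ N, t (n + 1) - t n ≤ 0
    · obtain ⟨n, hn, h1⟩ := hneg
      have h2 := hdec n hn
      set κ : ℝ := t (n + 1) - t (n + 2) with hκ
      have hκ0 : 0 < κ := by linarith
      have h3 : ∀ j : ℕ, t (n + j + 2) - t (n + j + 1) ≤ -κ := by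
        intro j
        induction j with
        | zero => simp only [Nat.add_zero]; linarith
        | succ j ih =>
          have := hdec (n + j + 1) (by omega)
          have e : n + (j + 1) + 2 = n + j + 1 + 2 := by omega
          have e' : n + (j + 1) + 1 = n + j + 1 + 1 := by omega
          rw [e, e']
          have e2 : n + j + 2 = n + j + 1 + 1 := by omega
          rw [e2] at ih
          linarith
      have h4 : ∀ j : ℕ, t (n + j + 1) ≤ t (n + 1) - j * κ := by
        intro j
        induction j with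
        | zero => simp
        | succ j ih =>
          have := h3 j
          have e' : n + (j + 1) + 1 = n + j + 2 := by omega
          rw [e']
          push_cast
          linarith
      obtain ⟨j, hj⟩ := exists_nat_gt (t (n + 1) / κ)
      rw [div_lt_iff₀ hκ0] at hj
      have h5 := h4 j
      have h6 := ht1 (n + j)
      linarith
    · push Not at hneg
      have h3 : ∀ j : ℕ, t (N + 1) ≤ t (N + j + 1) := by
        intro j
        induction j with
        | zero => simp
        | succ j ih =>
          have := hneg (N + j + 1) (by omega)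
          have e' : N + (j + 1) + 1 = N + j + 1 + 1 := by omega
          rw [e']
          linarith
      have h4 : ∀ j : ℕ, t (N + j + 1) - t (N + j) ≤ t (N + 1) - t N - j * (δ / 8 * t (N + 1)) := by
        intro j
        induction j with
        | zero => simp
        | succ j ih =>
          have h5 := hω (N + j) (by omega)
          have h6 := h3 j
          have e' : N + (j + 1) + 1 = N + j + 2 := by omega
          have e'' : N + (j + 1) = N + j + 1 := by omega
          rw [e', e'']
          have h7 : δ / 8 * t (N + 1) ≤ δ / 8 * t (N + j + 1) := by gcongr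
          push_cast
          linarith
      have hc : 0 < δ / 8 * t (N + 1) := by have := ht1 N; positivity
      obtain ⟨j, hj⟩ := exists_nat_gt ((t (N + 1) - t N) / (δ / 8 * t (N + 1)))
      rw [div_lt_iff₀ hc] at hj
      have h5 := h4 j
      have h6 := hneg (N + j) (by omega)
      linarith

lemma seq_large {a d m r r' : ℝ} (hd : 0 < d) (hr : 1 < r) (hrr : r ≤ r') (hsum : r + r' = m)
    (hprod : r * r' = m) (σ : ℕ → ℝ) (h0 : σ 0 = 0) (h1 : σ 1 ≤ a)
    (hstep : ∀ n, σ (n + 2) ≤ a + m * (σ (n + 1) - σ n - d))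
    (hinc : ∀ n, σ n + d ≤ σ (n + 1)) : d * r ≤ a := by
  by_contra hcon
  push Not at hcon
  have hlin : ∀ n : ℕ, n * d ≤ σ n := by
    intro n
    induction n with
    | zero => simp [h0]
    | succ n ih => have := hinc n; push_cast; linarith
  have hr' : 1 < r' := by linarith
  have hr'1 : 0 < r' - 1 := by linarith
  set W : ℝ := (m * d - a) / (r' - 1) with hW
  have hWeq : W * (r' - 1) = m * d - a := by rw [hW]; field_simp
  have hκ : 0 < W - a := by
    have : a * (r' - 1) < W * (r' - 1) := by
      rw [hWeq]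
      nlinarith
    have := lt_of_mul_lt_mul_right this hr'1.le
    linarith
  have hmd : d * r ≤ m * d := by
    have : r ≤ m := by linarith
    nlinarith
  have hW0 : 0 < W := by rw [hW]; apply div_pos _ hr'1; linarith
  have key : ∀ n, σ (n + 1) - r * σ n ≤ W - (W - a) * r' ^ n := by
    intro n
    induction n with
    | zero => rw [h0]; simp; exact h1
    | succ n ih =>
      have h2 := hstep n
      have h3 : r' * (σ (n + 1) - r * σ n) ≤ r' * (W - (W - a) * r' ^ n) := by gcongr
      have e : a + m * (σ (n + 1) - σ n - d) - r * σ (n + 1) =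
          a - m * d + r' * (σ (n + 1) - r * σ n) := by
        have : m * σ n = r' * (r * σ n) := by rw [← hprod]; ring
        have h5 : m * σ (n + 1) = r * σ (n + 1) + r' * σ (n + 1) := by rw [← hsum]; ring
        linarith
      have e2 : a - m * d + r' * (W - (W - a) * r' ^ n) = W - (W - a) * r' ^ (n + 1) := by
        rw [pow_succ]
        have : a - m * d = -(W * (r' - 1)) := by rw [hWeq]; ring
        rw [this]; ring
      rw [show n + 1 + 1 = n + 2 from rfl]
      linarith
  have hr1 : 0 < r - 1 := by linarith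
  have key2 : ∀ n : ℕ, σ n ≤ (r ^ n - 1) * (W / (r - 1)) - n * (W - a) * r ^ n / r := by
    intro n
    induction n with
    | zero => rw [h0]; simp
    | succ n ih =>
      have h2 := key n
      have h3 : (W - a) * r ^ n ≤ (W - a) * r' ^ n := by gcongr
      have h4 : r * σ n ≤ r * ((r ^ n - 1) * (W / (r - 1)) - n * (W - a) * r ^ n / r) := by gcongr
      have e : (r ^ (n + 1) - 1) * (W / (r - 1)) - ((n + 1 : ℕ) : ℝ) * (W - a) * r ^ (n + 1) / r =
          r * ((r ^ n - 1) * (W / (r - 1)) - n * (W - a) * r ^ n / r) + W - (W - a) * r ^ n := by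
        push_cast
        field_simp
        ring
      rw [e]
      linarith
  obtain ⟨n, hn⟩ := exists_nat_gt (W / (r - 1) * r / (W - a))
  rw [div_lt_iff₀ hκ] at hn
  have h2 := key2 n
  have h3 : 0 ≤ σ n := le_trans (by positivity) (hlin n)
  have h4 : (r ^ n - 1) * (W / (r - 1)) ≤ r ^ n * (W / (r - 1)) := by
    have : 0 < W / (r - 1) := by positivity
    nlinarith
  have h5 : r ^ n * (W / (r - 1)) < n * (W - a) * r ^ n / r := by
    rw [lt_div_iff₀ (by linarith)]
    have : 0 < r ^ n := by positivity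
    calc r ^ n * (W / (r - 1)) * r = W / (r - 1) * r * r ^ n := by ring
      _ < n * (W - a) * r ^ n := by gcongr
  linarith

lemma seq_bound {a b d : ℝ} (hd : 0 < d) (σ : ℕ → ℝ) (h0 : σ 0 = 0) (h1 : σ 1 ≤ a)
    (hstep : ∀ n, σ (n + 2) ≤ a + (b - 1) / 2 * (σ (n + 1) - σ n - d))
    (hinc : ∀ n, σ n + d ≤ σ (n + 1)) : 5 + d + 2 * Real.sqrt (4 + 2 * d) ≤ a + b := by
  set m := (b - 1) / 2 with hm
  rcases lt_or_ge m 4 with h4 | h4
  · exact (seq_contra_small hd h4 σ h0 hstep hinc).elim
  · set q := Real.sqrt (m ^ 2 - 4 * m) with hq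
    have hq2 : q ^ 2 = m ^ 2 - 4 * m := Real.sq_sqrt (by nlinarith)
    have hq0 : 0 ≤ q := Real.sqrt_nonneg _
    set r := (m - q) / 2 with hr
    set r' := (m + q) / 2 with hr'
    have hprod : r * r' = m := by rw [hr, hr']; nlinarith
    have hsum : r + r' = m := by rw [hr, hr']; ring
    have hr1 : 1 < r := by
      have : q < m - 2 := by
        apply lt_of_pow_lt_pow_left₀ 2 (by linarith)
        rw [hq2]; nlinarith
      rw [hr]; linarith
    have ha := seq_large hd hr1 (by rw [hr, hr']; linarith) hsum hprod σ h0 h1 hstep hinc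
    have hr0 : 0 < r - 1 := by linarith
    have e1 : m * (r - 1) = r ^ 2 := by
      have : r' = m - r := by linarith
      rw [this] at hprod
      nlinarith
    have e2 : m = (r - 1) + 2 + 1 / (r - 1) := by
      field_simp
      nlinarith
    have hb : b = 1 + 2 * m := by rw [hm]; ring
    have h5 : 2 * Real.sqrt (4 + 2 * d) ≤ (2 + d) * (r - 1) + 2 / (r - 1) := by
      have h6 : (2 * Real.sqrt (4 + 2 * d)) ^ 2 = 4 * (4 + 2 * d) := by
        rw [mul_pow, Real.sq_sqrt (by positivity)]; ring
      apply le_of_pow_le_pow_left₀ two_ne_zero (by positivity)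
      rw [h6]
      have h7 : (2 + d) * (r - 1) * (2 / (r - 1)) = 2 * (2 + d) := by field_simp
      nlinarith [sq_nonneg ((2 + d) * (r - 1) - 2 / (r - 1))]
    have h8 : 2 / (r - 1) = 2 * (1 / (r - 1)) := by ring
    nlinarith

/-! ### The lower bound: records -/

/-- the largest of the numbers `x j` with `j < q` and `j % 2 = s`, and `0` if there is none -/
noncomputable def mx (x : ℕ → ℝ) (s : ℕ) : ℕ → ℝ
  | 0 => 0
  | q + 1 => if q % 2 = s then max (mx x s q) (x q) else mx x s q

lemma mx_mono (x : ℕ → ℝ) (s : ℕ) : Monotone (mx x s) := by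
  apply monotone_nat_of_le_succ
  intro q
  simp only [mx]
  split_ifs
  · exact le_max_left _ _
  · exact le_rfl

lemma mx_nonneg (x : ℕ → ℝ) (s q : ℕ) : 0 ≤ mx x s q := mx_mono x s (Nat.zero_le q)

lemma le_mx {x : ℕ → ℝ} {s q j : ℕ} (hj : j < q) (hs : j % 2 = s) : x j ≤ mx x s q := by
  have h1 : x j ≤ mx x s (j + 1) := by
    simp only [mx, if_pos hs]
    exact le_max_right _ _
  exact h1.trans (mx_mono x s hj)

lemma mx_le {x : ℕ → ℝ} {s q : ℕ} {M : ℝ} (hM : 0 ≤ M) (h : ∀ j < q, j % 2 = s → x j ≤ M) :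
    mx x s q ≤ M := by
  induction q with
  | zero => exact hM
  | succ q ih =>
    have h1 := ih fun j hj => h j (by omega)
    simp only [mx]
    split_ifs with h2
    · exact max_le h1 (h q (by omega) h2)
    · exact h1

/-- index `q` is a record on its side -/
def Rec (x : ℕ → ℝ) (q : ℕ) : Prop := mx x (q % 2) q < x q

lemma mx_attained {x : ℕ → ℝ} {q : ℕ} (hq : Rec x q) {q' : ℕ} (h : q < q') :
    ∃ j, q ≤ j ∧ j < q' ∧ mx x (q % 2) q' = x j := by
  induction q', h using Nat.le_induction with
  | base =>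
    refine ⟨q, le_rfl, Nat.lt_succ_self q, ?_⟩
    change mx x (q % 2) (q + 1) = x q
    simp only [mx, if_true]
    exact max_eq_right hq.le
  | succ n hn ih =>
    obtain ⟨j, h1, h2, h3⟩ := ih
    simp only [mx]
    split_ifs with h4
    · rcases max_choice (mx x (q % 2) n) (x n) with h5 | h5
      · exact ⟨j, h1, by omega, by rw [h5, h3]⟩
      · exact ⟨n, by omega, by omega, h5⟩
    · exact ⟨j, h1, by omega, h3⟩

/-- If the cost is bounded by `a + b |H|`, then a record `q` on a side with previous record `y`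
satisfies `back q ≤ a + (b - 1) y`. -/
lemma record_bound {a b d : ℝ} (hd : 0 < d) {x : ℕ → ℝ} (hx : ∀ i, 0 < x i)
    (h : ∀ H, cost d x H ≤ ENNReal.ofReal (a + b * |H|)) {q : ℕ} (hq : Rec x q) :
    back d x q ≤ a + (b - 1) * mx x (q % 2) q := by
  have hback : 0 ≤ back d x q := by
    have := back_mono hd hx (Nat.zero_le q)
    simpa [back] using this
  have key : ∀ h' ∈ Ioc (mx x (q % 2) q) (x q), back d x q ≤ a + (b - 1) * h' := by
    intro h' hh'
    have h0 : 0 < h' := lt_of_le_of_lt (mx_nonneg _ _ _) hh'.1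
    have h1 := (cost_ge hd hx (k := q) h0 fun j hj hs =>
      lt_of_le_of_lt (le_mx hj hs) hh'.1).trans (h _)
    have h2 : |(-1 : ℝ) ^ q * h'| = h' := by
      rw [abs_mul, abs_pow, abs_neg, abs_one, one_pow, one_mul, abs_of_pos h0]
    rw [h2] at h1
    rw [ENNReal.ofReal_le_ofReal_iff'] at h1
    rcases h1 with h1 | h1 <;> linarith
  by_contra hcon
  push Not at hcon
  -- by continuity
  have hcont : Filter.Tendsto (fun t : ℝ => a + (b - 1) * t)
      (nhdsWithin (mx x (q % 2) q) (Ioi (mx x (q % 2) q)))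
      (nhds (a + (b - 1) * mx x (q % 2) q)) := by
    apply Filter.Tendsto.mono_left _ nhdsWithin_le_nhds
    exact Continuous.tendsto (by fun_prop) _
  have h3 : ∀ᶠ t in nhdsWithin (mx x (q % 2) q) (Ioi (mx x (q % 2) q)),
      a + (b - 1) * t < back d x q := hcont.eventually_lt_const hcon
  have h4 : ∀ᶠ t in nhdsWithin (mx x (q % 2) q) (Ioi (mx x (q % 2) q)),
      t ∈ Ioc (mx x (q % 2) q) (x q) := Ioc_mem_nhdsGT hq
  obtain ⟨t, ht1, ht2⟩ := (h3.and h4).exists
  have := key t ht2
  linarith

lemma slope_ge_one {a b d : ℝ} (hd : 0 < d) {x : ℕ → ℝ} (hx : ∀ i, 0 < x i)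
    (h : ∀ H, cost d x H ≤ ENNReal.ofReal (a + b * |H|)) : 1 ≤ b := by
  by_contra hcon
  push Not at hcon
  set t : ℝ := (|a| + 1) / (1 - b) with ht
  have hb : 0 < 1 - b := by linarith
  have ht0 : 0 < t := by positivity
  have h1 := (cost_ge hd hx (k := 0) ht0 fun j hj => absurd hj (Nat.not_lt_zero j)).trans (h _)
  simp only [pow_zero, one_mul, back, Finset.range_zero, Finset.sum_empty, zero_add] at h1
  rw [abs_of_pos ht0, ENNReal.ofReal_le_ofReal_iff'] at h1
  have h2 : t * (1 - b) = |a| + 1 := by rw [ht]; field_simp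
  have h3 := le_abs_self a
  rcases h1 with h1 | h1
  · nlinarith
  · linarith

/-- both sides are searched arbitrarily far -/
lemma unbounded {a b d : ℝ} (hd : 0 < d) {x : ℕ → ℝ} (hx : ∀ i, 0 < x i)
    (h : ∀ H, cost d x H ≤ ENNReal.ofReal (a + b * |H|)) (s : ℕ) (hs : s < 2) (M : ℝ) :
    ∃ j, j % 2 = s ∧ M < x j := by
  by_contra hcon
  push Not at hcon
  set t : ℝ := |M| + 1 with ht
  have ht0 : 0 < t := by positivity
  have hlt : ∀ j, j % 2 = s → x j < t := fun j hj => by
    have := hcon j hj
    have := le_abs_self M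
    linarith
  have hlin : ∀ k : ℕ, k * d ≤ back d x k := by
    intro k
    induction k with
    | zero => simp [back]
    | succ k ih => rw [back_succ]; have := hx k; push_cast; linarith
  obtain ⟨n, hn⟩ := exists_nat_gt ((|a| + |b| * t) / d)
  rw [div_lt_iff₀ hd] at hn
  have h1 := (cost_ge hd hx (k := s + 2 * n) ht0 fun j hj hj2 => hlt j (by omega)).trans (h _)
  have h2 : |(-1 : ℝ) ^ (s + 2 * n) * t| = t := by
    rw [abs_mul, abs_pow, abs_neg, abs_one, one_pow, one_mul, abs_of_pos ht0]
  rw [h2, ENNReal.ofReal_le_ofReal_iff'] at h1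
  have h3 := hlin (s + 2 * n)
  have h4 : (n : ℝ) * d ≤ ((s + 2 * n : ℕ) : ℝ) * d := by
    have : (n : ℝ) ≤ ((s + 2 * n : ℕ) : ℝ) := by exact_mod_cast (by omega)
    gcongr
  have h5 := le_abs_self a
  have h6 : b * t ≤ |b| * t := by
    have := le_abs_self b
    gcongr
  have h7 : 0 ≤ (n : ℝ) * d := by positivity
  rcases h1 with h1 | h1 <;> linarith

lemma next_record {a b d : ℝ} (hd : 0 < d) {x : ℕ → ℝ} (hx : ∀ i, 0 < x i)
    (h : ∀ H, cost d x H ≤ ENNReal.ofReal (a + b * |H|)) {q : ℕ} (hq : Rec x q) :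
    ∃ q', Rec x q' ∧ back d x q' ≤ a + (b - 1) * mx x ((q + 1) % 2) q ∧
      2 * mx x ((q' + 1) % 2) q' + d ≤ back d x q' - back d x q := by
  classical
  have hex : ∃ j, j % 2 = (q + 1) % 2 ∧ mx x ((q + 1) % 2) q < x j :=
    unbounded hd hx h _ (Nat.mod_lt _ two_pos) _
  have hspec := Nat.find_spec hex
  have hmin := fun m => Nat.find_min (H := hex) (m := m)
  generalize Nat.find hex = q' at hspec hmin
  have hlt : q < q' := by
    rcases lt_trichotomy q q' with h1 | h1 | h1
    · exact h1
    · exfalso; have := hspec.1; omega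
    · exact absurd (le_mx h1 hspec.1) (not_le.2 hspec.2)
  have hM : mx x ((q + 1) % 2) q' = mx x ((q + 1) % 2) q := by
    apply le_antisymm
    · refine mx_le (mx_nonneg _ _ _) fun j hj hs => ?_
      have := hmin j hj
      push Not at this
      exact this hs
    · exact mx_mono _ _ hlt.le
  have hrec : Rec x q' := by
    unfold Rec
    rw [hspec.1, hM]
    exact hspec.2
  refine ⟨q', hrec, ?_, ?_⟩
  · have := record_bound hd hx h hrec
    rwa [hspec.1, hM] at this
  · have hs : (q' + 1) % 2 = q % 2 := by have := hspec.1; omega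
    rw [hs]
    obtain ⟨j, h1, h2, h3⟩ := mx_attained hq hlt
    rw [h3]
    have h4 := back_mono hd hx h1
    have h5 := back_mono hd hx (show j + 1 ≤ q' from h2)
    rw [back_succ] at h5
    linarith

/-- A linear bound `C(S, H) ≤ a + b |H|` forces `a + b ≥ 5 + d + 2 √(4 + 2 d)`. -/
lemma linear_lower {a b d : ℝ} (hd : 0 < d) {x : ℕ → ℝ} (hx : ∀ i, 0 < x i)
    (h : ∀ H, cost d x H ≤ ENNReal.ofReal (a + b * |H|)) :
    5 + d + 2 * Real.sqrt (4 + 2 * d) ≤ a + b := by
  have hb := slope_ge_one hd hx h
  choose! f hf1 hf2 hf3 using fun q (hq : Rec x q) => next_record hd hx h hq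
  have hrec0 : Rec x 0 := by simpa [Rec, mx] using hx 0
  have hrec : ∀ n, Rec x (f^[n] 0) := by
    intro n
    induction n with
    | zero => exact hrec0
    | succ n ih => rw [Function.iterate_succ_apply']; exact hf1 _ ih
  refine seq_bound hd (fun n => back d x (f^[n] 0)) (by simp [back]) ?_ ?_ ?_
  · have := hf2 0 hrec0
    simpa [mx] using this
  · intro n
    have h1 := hf2 _ (hrec (n + 1))
    have h2 := hf3 _ (hrec n)
    simp only [Function.iterate_succ_apply'] at h1 h2 ⊢
    have h3 : (b - 1) * mx x ((f (f^[n] 0) + 1) % 2) (f (f^[n] 0)) ≤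
        (b - 1) * ((back d x (f (f^[n] 0)) - back d x (f^[n] 0) - d) / 2) := by
      have : 0 ≤ b - 1 := by linarith
      gcongr
      linarith
    linarith
  · intro n
    have h2 := hf3 _ (hrec n)
    simp only [Function.iterate_succ_apply'] at h2 ⊢
    have := mx_nonneg x ((f (f^[n] 0) + 1) % 2) (f (f^[n] 0))
    linarith

/-! ### The lower bound: duality -/

/-- a hiding strategy with one point -/
lemma one_point {d v : ℝ} {x : ℕ → ℝ} (hw : worst d x ≤ ENNReal.ofReal v) {H : ℝ} (hH : |H| ≤ 1) :
    cost d x H ≤ ENNReal.ofReal v := by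
  refine le_trans ?_ hw
  have h1 : ∫⁻ t, cost d x t ∂(Measure.dirac H) = cost d x H := lintegral_dirac _ _
  rw [← h1]
  unfold worst
  refine le_iSup_of_le (Measure.dirac H) (le_iSup_of_le inferInstance (le_iSup_of_le ?_ le_rfl))
  rw [lintegral_dirac]
  rw [← ENNReal.ofReal_one]
  exact ENNReal.ofReal_le_ofReal hH

/-- a hiding strategy with two points -/
lemma two_point {d v : ℝ} {x : ℕ → ℝ} (hw : worst d x ≤ ENNReal.ofReal v) {H K lam : ℝ}
    (hl0 : 0 ≤ lam) (hl1 : lam ≤ 1) (hE : lam * |H| + (1 - lam) * |K| ≤ 1) :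
    ENNReal.ofReal lam * cost d x H + ENNReal.ofReal (1 - lam) * cost d x K ≤
      ENNReal.ofReal v := by
  refine le_trans ?_ hw
  set μ : Measure ℝ := ENNReal.ofReal lam • Measure.dirac H +
    ENNReal.ofReal (1 - lam) • Measure.dirac K with hμ
  have hint : ∀ f : ℝ → ℝ≥0∞, ∫⁻ t, f t ∂μ =
      ENNReal.ofReal lam * f H + ENNReal.ofReal (1 - lam) * f K := by
    intro f
    rw [hμ, lintegral_add_measure, lintegral_smul_measure, lintegral_smul_measure,
      lintegral_dirac, lintegral_dirac]
    rfl
  have hprob : IsProbabilityMeasure μ := by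
    constructor
    have h1 : μ univ = ∫⁻ _, 1 ∂μ := by simp
    rw [h1, hint, mul_one, mul_one, ← ENNReal.ofReal_add hl0 (by linarith)]
    simp
  rw [← hint]
  unfold worst
  refine le_iSup_of_le μ (le_iSup_of_le hprob (le_iSup_of_le ?_ le_rfl))
  rw [hint, ← ENNReal.ofReal_mul hl0, ← ENNReal.ofReal_mul (by linarith),
    ← ENNReal.ofReal_add (by positivity) (mul_nonneg (by linarith) (abs_nonneg _)),
    ← ENNReal.ofReal_one]
  exact ENNReal.ofReal_le_ofReal hE

/-- A bound for the worst expected cost gives a linear bound for the cost. -/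
lemma exists_linear {d v : ℝ} (hv : 0 ≤ v) {x : ℕ → ℝ} (hx : ∀ i, 0 < x i)
    (hw : worst d x ≤ ENNReal.ofReal v) :
    ∃ a b : ℝ, a + b = v ∧ ∀ H, cost d x H ≤ ENNReal.ofReal (a + b * |H|) := by
  -- the cost of the origin is zero
  have hc0 : cost d x 0 = 0 := by
    have := cost_le (d := d) hx (k := 0) (h := 0) le_rfl (hx 0).le
    simpa [back] using this
  -- the cost is finite
  have hfin : ∀ H, cost d x H ≠ ⊤ := by
    intro H
    have hp : 0 < 1 / (1 + |H|) := by positivity
    have h1 := two_point hw (H := H) (K := 0) (lam := 1 / (1 + |H|)) hp.le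
      (by rw [div_le_one (by positivity)]; have := abs_nonneg H; linarith)
      (by
        rw [abs_zero, mul_zero, add_zero, div_mul_eq_mul_div, one_mul,
          div_le_one (by positivity)]
        linarith)
    rw [hc0, mul_zero, add_zero] at h1
    intro hcon
    rw [hcon, ENNReal.mul_top (by simpa using hp)] at h1
    exact absurd (top_le_iff.1 h1) ENNReal.ofReal_ne_top
  set C : ℝ → ℝ := fun H => (cost d x H).toReal with hC
  have hCc : ∀ H, cost d x H = ENNReal.ofReal (C H) := fun H =>
    (ENNReal.ofReal_toReal (hfin H)).symm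
  have hC0 : ∀ H, 0 ≤ C H := fun H => ENNReal.toReal_nonneg
  have h1p : ∀ H, |H| ≤ 1 → C H ≤ v := by
    intro H hH
    have := one_point hw hH
    rw [hCc, ENNReal.ofReal_le_ofReal_iff hv] at this
    exact this
  have h2p : ∀ H K lam : ℝ, 0 ≤ lam → lam ≤ 1 → lam * |H| + (1 - lam) * |K| ≤ 1 →
      lam * C H + (1 - lam) * C K ≤ v := by
    intro H K lam h0 h1 h2
    have := two_point hw h0 h1 h2
    rw [hCc, hCc, ← ENNReal.ofReal_mul h0, ← ENNReal.ofReal_mul (by linarith),
      ← ENNReal.ofReal_add (mul_nonneg h0 (hC0 _)) (mul_nonneg (by linarith) (hC0 _)),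
      ENNReal.ofReal_le_ofReal_iff hv] at this
    exact this
  have hslope : ∀ H K : ℝ, 1 < |H| → |K| < 1 →
      (C H - v) / (|H| - 1) ≤ (v - C K) / (1 - |K|) := by
    intro H K hH hK
    rw [div_le_div_iff₀ (by linarith) (by linarith)]
    have hpos : 0 < |H| - |K| := by linarith
    have h3 := h2p H K ((1 - |K|) / (|H| - |K|)) (div_nonneg (by linarith) hpos.le)
      (by rw [div_le_one hpos]; linarith)
      (by
        have : (1 - |K|) / (|H| - |K|) * |H| + (1 - (1 - |K|) / (|H| - |K|)) * |K| = 1 := by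
          field_simp; ring
        exact this.le)
    have e : (1 - |K|) / (|H| - |K|) * C H + (1 - (1 - |K|) / (|H| - |K|)) * C K =
        ((1 - |K|) * C H + (|H| - 1) * C K) / (|H| - |K|) := by
      field_simp; ring
    rw [e, div_le_iff₀ hpos] at h3
    nlinarith
  set B : Set ℝ := {t | ∃ H : ℝ, 1 < |H| ∧ t = (C H - v) / (|H| - 1)} with hB
  have hBne : B.Nonempty := ⟨_, 2, by norm_num, rfl⟩
  have hBbdd : BddAbove B := by
    refine ⟨(v - C 0) / (1 - |(0:ℝ)|), ?_⟩
    rintro t ⟨H, hH, rfl⟩
    exact hslope H 0 hH (by norm_num)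
  refine ⟨v - sSup B, sSup B, by ring, fun H => ?_⟩
  rw [hCc]
  apply ENNReal.ofReal_le_ofReal
  rcases lt_trichotomy |H| 1 with h | h | h
  · have h3 : sSup B ≤ (v - C H) / (1 - |H|) := by
      apply csSup_le hBne
      rintro t ⟨K, hK, rfl⟩
      exact hslope K H hK h
    rw [le_div_iff₀ (by linarith)] at h3
    nlinarith
  · rw [h]
    have := h1p H h.le
    linarith
  · have h3 : (C H - v) / (|H| - 1) ≤ sSup B := le_csSup hBbdd ⟨H, h, rfl⟩
    rw [div_le_iff₀ (by linarith)] at h3
    nlinarith

lemma worst_ge {d : ℝ} (hd : 0 < d) {x : ℕ → ℝ} (hx : ∀ i, 0 < x i) :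
    ENNReal.ofReal (5 + d + 2 * Real.sqrt (4 + 2 * d)) ≤ worst d x := by
  rcases eq_or_ne (worst d x) ⊤ with h | h
  · rw [h]; exact le_top
  · have h1 : worst d x = ENNReal.ofReal (worst d x).toReal := (ENNReal.ofReal_toReal h).symm
    obtain ⟨a, b, hab, hlin⟩ := exists_linear (v := (worst d x).toReal) ENNReal.toReal_nonneg hx
      h1.le
    have := linear_lower hd hx hlin
    rw [hab] at this
    rw [h1]
    exact ENNReal.ofReal_le_ofReal this

lemma traj_value {d : ℝ} (hd : 0 < d) :
    worst d (traj d (1 + Real.sqrt (2 / (2 + d)))) ≤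
      ENNReal.ofReal (5 + d + 2 * Real.sqrt (4 + 2 * d)) := by
  have hs : 0 < Real.sqrt (2 / (2 + d)) := Real.sqrt_pos.2 (by positivity)
  refine (upper hd (by linarith)).trans (ENNReal.ofReal_le_ofReal ?_)
  set s := Real.sqrt (2 / (2 + d)) with hsdef
  have hs2 : s ^ 2 = 2 / (2 + d) := Real.sq_sqrt (by positivity)
  have e1 : (2 + d) * s = 2 / s := by
    have h3 : (2 + d) * s ^ 2 = 2 := by rw [hs2]; field_simp
    field_simp
    nlinarith
  have e2 : Real.sqrt (4 + 2 * d) = 2 / s := by
    rw [Real.sqrt_eq_iff_mul_self_eq (by positivity) (by positivity)]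
    have h3 : (2 + d) * s ^ 2 = 2 := by rw [hs2]; field_simp
    have h4 : 2 / s * (2 / s) = 4 / s ^ 2 := by field_simp; norm_num
    rw [h4, hs2]
    field_simp
    ring
  rw [e2]
  have e3 : 2 * (1 + s) ^ 2 / (1 + s - 1) = 2 / s + 4 + 2 * s := by
    have : 1 + s - 1 = s := by ring
    rw [this]; field_simp; ring
  rw [e3]
  have e4 : 2 * (2 / s) = 2 / s + (2 + d) * s := by rw [e1]; ring
  linarith

/-- **Q1.** For every turning cost `d > 0` the value is `V(d) = 5 + d + 2 √(4 + 2 d)`; it is
attained by the trajectory `x i = (d / 2) (r ^ (i + 1) - 1)`, `r = 1 + √(2 / (2 + d))`, and it is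
strictly smaller than `9 + 2 d`. -/
theorem result (d : ℝ) (hd : 0 < d) :
    value d = ENNReal.ofReal (5 + d + 2 * Real.sqrt (4 + 2 * d)) ∧
      value d < ENNReal.ofReal (9 + 2 * d) ∧
      worst d (fun i => d / 2 * ((1 + Real.sqrt (2 / (2 + d))) ^ (i + 1) - 1)) = value d := by
  have hr : 1 < 1 + Real.sqrt (2 / (2 + d)) := by
    have : 0 < Real.sqrt (2 / (2 + d)) := Real.sqrt_pos.2 (by positivity)
    linarith
  have hpos := traj_pos hd hr
  have h1 : value d = ENNReal.ofReal (5 + d + 2 * Real.sqrt (4 + 2 * d)) := by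
    apply le_antisymm
    · exact (iInf₂_le _ hpos).trans (traj_value hd)
    · exact le_iInf₂ fun x hx => worst_ge hd hx
  refine ⟨h1, ?_, ?_⟩
  · rw [h1]
    rw [ENNReal.ofReal_lt_ofReal_iff (by positivity)]
    have h2 : 2 * Real.sqrt (4 + 2 * d) < 4 + d := by
      apply lt_of_pow_lt_pow_left₀ 2 (by positivity)
      rw [mul_pow, Real.sq_sqrt (by positivity)]
      nlinarith
    linarith
  · apply le_antisymm
    · rw [h1]; exact traj_value hd
    · exact iInf₂_le _ hpos

end Pool.Agent.Results.MP_5c5fd6_lc.TurnCostValue
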